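import Mathlib
import Pool.Agent.Q256.T6.Val
import Pool.Agent.Q176.T6.Gauss

set_option autoImplicit false

/-!
# The absolute height of an algebraic number and the Mahler measure (JOB D)
-/

namespace Pool.Agent.Q98.T7

open NumberField Polynomial Module

/-- product over the infinite places and over the embeddings -/
theorem prod_places {K : Type} [Field K] [NumberField K] (y : K) (f : ℝ → ℝ) :
    ∏ w : InfinitePlace K, f (w y) ^ InfinitePlace.mult w = ∏ φ : K →+* ℂ, f ‖φ y‖ := by
  classical
  rw [← Finset.prod_fiberwise Finset.univ InfinitePlace.mk (fun φ : K →+* ℂ => f ‖φ y‖)]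
  refine Finset.prod_congr rfl fun w _ => ?_
  have h1 : ∀ φ ∈ Finset.univ.filter (fun φ : K →+* ℂ => InfinitePlace.mk φ = w),
      f ‖φ y‖ = f (w y) := by
    intro φ hφ
    rw [← (Finset.mem_filter.mp hφ).2, InfinitePlace.apply]
  rw [Finset.prod_congr rfl h1, Finset.prod_const, InfinitePlace.card_filter_mk_eq]

theorem prod_embeddings {K : Type} [Field K] [NumberField K] (y : K) (f : ℝ → ℝ) :
    ∏ φ : K →+* ℂ, f ‖φ y‖ = ∏ σ : K →ₐ[ℚ] ℂ, f ‖σ y‖ :=
  Fintype.prod_equiv (RingHom.equivRatAlgHom K ℂ) _ _ fun _ => by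
    simp [RingHom.equivRatAlgHom_apply]

/-- degree of the field -/
theorem finrank_eq {K : Type} [Field K] [NumberField K] (y : K)
    (hy : IntermediateField.adjoin ℚ {y} = ⊤) (g : ℤ[X]) (hg : Irreducible g)
    (h0 : aeval y g = 0) : finrank ℚ K = g.natDegree := by
  have hd : g.natDegree ≠ 0 := by
    intro h
    rw [Polynomial.eq_C_of_natDegree_eq_zero h] at h0 hg
    simp only [aeval_C] at h0
    rw [algebraMap_int_eq, eq_intCast, Int.cast_eq_zero] at h0
    rw [h0, C_0] at hg
    exact hg.ne_zero rfl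
  have hgp : g.IsPrimitive := hg.isPrimitive hd
  have hgQ : Irreducible (g.map (Int.castRingHom ℚ)) :=
    (Polynomial.IsPrimitive.Int.irreducible_iff_irreducible_map_cast hgp).1 hg
  have h3 : aeval y (g.map (Int.castRingHom ℚ)) = 0 := by
    rw [← algebraMap_int_eq, Polynomial.aeval_map_algebraMap]; exact h0
  have h4 := minpoly.eq_of_irreducible hgQ h3
  have hint : IsIntegral ℚ y := Algebra.IsIntegral.isIntegral y
  rw [← IntermediateField.finrank_top', ← hy, IntermediateField.adjoin.finrank hint, ← h4,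
    natDegree_mul_C (by
      rw [Ne, inv_eq_zero, leadingCoeff_eq_zero]
      exact hgQ.ne_zero),
    natDegree_map_eq_of_injective Int.cast_injective]

/-- the height in the field generated by the number -/
theorem mulHeight_eq_mah {K : Type} [Field K] [NumberField K] (y : K)
    (hy : IntermediateField.adjoin ℚ {y} = ⊤) (g : ℤ[X]) (hg : Irreducible g)
    (h0 : aeval y g = 0) : Height.mulHeight₁ y = (g.map (Int.castRingHom ℂ)).mahlerMeasure := by
  have hfr := finrank_eq y hy g hg h0
  have hint : IsIntegral ℤ (g.leadingCoeff • y) := by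
    have := isIntegral_leadingCoeff_smul g y h0
    exact this
  obtain ⟨a, ha⟩ : ∃ a : 𝓞 K, (a : K) = (g.leadingCoeff : K) * y :=
    ⟨⟨g.leadingCoeff • y, hint⟩, by simp [zsmul_eq_mul]⟩
  have hlc : g.leadingCoeff ≠ 0 := leadingCoeff_ne_zero.2 hg.ne_zero
  set b : 𝓞 K := (g.leadingCoeff : 𝓞 K) with hb
  have hbK : (b : K) = (g.leadingCoeff : K) := by rw [hb]; simp
  have hb0 : b ≠ 0 := by
    rw [hb]
    exact_mod_cast hlc
  have hbK0 : (b : K) ≠ 0 := by
    rw [hbK]
    exact_mod_cast hlc
  have hG := Pool.Agent.Q176.T6.gauss K y g a b hy hg h0 hb0 (by rw [hbK, ha])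
  have hdiv : y = (a : K) / (b : K) := by
    rw [ha, hbK, mul_div_cancel_left₀]
    exact_mod_cast hlc
  have hne : (![(a : K), (b : K)]) ≠ 0 := by
    intro h
    exact hbK0 (congrFun h 1)
  have hne' : (![a, b]) ≠ 0 := by
    intro h
    exact hb0 (congrFun h 1)
  have hfin := NumberField.absNorm_mul_finprod_finitePlace_eq_one hne'
  have hv : ∀ i : Fin 2, (((![a, b] i : 𝓞 K)) : K) = ![(a : K), (b : K)] i := by
    intro i
    fin_cases i <;> rfl
  simp only [hv] at hfin
  have hrange : Set.range ![a, b] = {a, b} := by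
    ext z
    simp only [Matrix.range_cons, Matrix.range_empty, Set.union_empty, Set.singleton_union]
  rw [hrange] at hfin
  have hH : Height.mulHeight₁ y = (∏ v : InfinitePlace K, (⨆ i, v (![(a : K), (b : K)] i)) ^ v.mult) *
      ∏ᶠ v : FinitePlace K, ⨆ i, v (![(a : K), (b : K)] i) := by
    conv_lhs => rw [hdiv]
    rw [Height.mulHeight₁_div_eq_mulHeight, NumberField.mulHeight_eq hne]
  have hinf : ∏ v : InfinitePlace K, (⨆ i, v (![(a : K), (b : K)] i)) ^ v.mult =
      (∏ v : InfinitePlace K, v (b : K) ^ v.mult) *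
        ∏ v : InfinitePlace K, (max 1 (v y)) ^ v.mult := by
    rw [← Finset.prod_mul_distrib]
    refine Finset.prod_congr rfl fun v _ => ?_
    rw [← mul_pow]
    congr 1
    have h1 : (⨆ i, v (![(a : K), (b : K)] i)) = max (v (a : K)) (v (b : K)) := by
      have : (fun i => v (![(a : K), (b : K)] i)) = ![v (a : K), v (b : K)] := by
        funext i
        fin_cases i <;> rfl
      rw [this]
      refine le_antisymm (ciSup_le ?_) (max_le ?_ ?_)
      · intro i
        fin_cases i
        · exact le_max_left _ _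
        · exact le_max_right _ _
      · exact le_ciSup_of_le (Set.finite_range _).bddAbove 0 le_rfl
      · exact le_ciSup_of_le (Set.finite_range _).bddAbove 1 le_rfl
    have h2 : v (a : K) = v (b : K) * v y := by
      rw [← map_mul, hbK, ← ha]
    rw [h1, h2, mul_max_of_nonneg _ _ (apply_nonneg v _), mul_one, max_comm]
  have hnorm : ∏ v : InfinitePlace K, v (b : K) ^ v.mult = ((Algebra.norm ℤ b).natAbs : ℝ) := by
    rw [InfinitePlace.prod_eq_abs_norm, ← Algebra.coe_norm_int]
    simp
  have hN : (0 : ℝ) < (Ideal.absNorm (Ideal.span {a, b}) : ℝ) := by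
    have : Ideal.absNorm (Ideal.span {a, b} : Ideal (𝓞 K)) ≠ 0 := by
      intro h
      rw [h] at hfin
      simp at hfin
    exact_mod_cast Nat.pos_of_ne_zero this
  have hG' : (Ideal.absNorm (Ideal.span {a, b}) : ℝ) * (g.leadingCoeff.natAbs : ℝ) =
      ((Algebra.norm ℤ b).natAbs : ℝ) := by exact_mod_cast hG
  have hroots : ∏ v : InfinitePlace K, (max 1 (v y)) ^ v.mult =
      ((g.map (Int.castRingHom ℂ)).roots.map (fun z => max 1 ‖z‖)).prod := by
    rw [prod_places y (fun t => max 1 t), prod_embeddings y (fun t => max 1 t)]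
    have hadj : Algebra.adjoin ℚ {y} = ⊤ := by
      rw [← IntermediateField.adjoin_simple_toSubalgebra_of_isAlgebraic
        (Algebra.IsAlgebraic.isAlgebraic y), hy, IntermediateField.top_toSubalgebra]
    rw [← Pool.Agent.Q256.T6.roots_eq g K y hfr hadj hg.ne_zero h0, Multiset.map_map]
    rfl
  have hm := Pool.Agent.Q256.T6.mah_eq g
  unfold Pool.Agent.Q256.T6.mah at hm
  rw [hm, hH, hinf, hnorm, hroots, ← hG']
  have hlcn : ‖(g.leadingCoeff : ℂ)‖ = (g.leadingCoeff.natAbs : ℝ) := by
    rw [Complex.norm_intCast]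
    simp
  rw [hlcn]
  linear_combination ((g.leadingCoeff.natAbs : ℝ) *
    ((g.map (Int.castRingHom ℂ)).roots.map (fun z => max 1 ‖z‖)).prod) * hfin

theorem adj_top {L : Type} [Field L] [NumberField L] (x : L)
    (A : Algebra ℚ (IntermediateField.adjoin ℚ {x})) :
    @IntermediateField.adjoin ℚ _ (IntermediateField.adjoin ℚ {x}) _ A
      {IntermediateField.AdjoinSimple.gen ℚ x} = ⊤ := by
  have h : A = (IntermediateField.adjoin ℚ {x}).algebra' := Subsingleton.elim _ _
  subst h
  apply IntermediateField.lift_injective (IntermediateField.adjoin ℚ {x})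
  rw [IntermediateField.lift_adjoin_simple, IntermediateField.lift_top]
  rfl

theorem abs_height (L : Type) [Field L] [NumberField L] (x : L) (g : Polynomial ℤ)
    (hg : Irreducible g) (h0 : Polynomial.aeval x g = 0) :
    NumberField.absLogHeight₁ x = 1 / (g.natDegree : ℝ) *
      Real.log ((g.map (Int.castRingHom ℂ)).mahlerMeasure) := by
  have hint : IsIntegral ℚ x := Algebra.IsIntegral.isIntegral x
  have : FiniteDimensional ℚ (IntermediateField.adjoin ℚ {x}) :=
    IntermediateField.adjoin.finiteDimensional hint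
  have : NumberField (IntermediateField.adjoin ℚ {x}) := {}
  set y := IntermediateField.AdjoinSimple.gen ℚ x with hyd
  have hy : IntermediateField.adjoin ℚ {y} = ⊤ := by
    exact adj_top x _
  have hy0 : aeval y g = 0 := by
    have hinj : Function.Injective (algebraMap (IntermediateField.adjoin ℚ {x}) L) :=
      (algebraMap (IntermediateField.adjoin ℚ {x}) L).injective
    apply hinj
    rw [map_zero, ← h0]
    have h2 : aeval (algebraMap (IntermediateField.adjoin ℚ {x}) L y) g =
        algebraMap (IntermediateField.adjoin ℚ {x}) L (aeval y g) :=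
      Polynomial.aeval_algHom_apply
        ((algebraMap (IntermediateField.adjoin ℚ {x}) L).toIntAlgHom) y g
    rw [← h2]
    rfl
  have h1 := mulHeight_eq_mah y hy g hg hy0
  have h2 := finrank_eq y hy g hg hy0
  unfold NumberField.absLogHeight₁ NumberField.absMulHeight₁
  rw [dif_pos hint, Real.log_rpow (Height.mulHeight₁_pos _)]
  rw [h1, h2, one_div]

end Pool.Agent.Q98.T7
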